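import Pool.Agent.H20.SPL.RcHullCounterexampleProof

/-!
# Rank-one convexity of the planar stationarity inclusion set: a counterexample

For every `n ≥ 5` there are a strictly polyconvex function `f` on the `n × 2` matrices (even of
class `C^∞`) and a radius `R > 0` such that the rank-one convex hull of `K_R = K_f ∩ B_R` is
strictly larger than `K_R`.

Idea of the construction.  Let `S = diag(-15, 35, 35, -34, -34)`.  There are sixteen integer
matrices `X_g` (an orbit of a group of order sixteen acting on the left by matrices preserving `S`
and on the right by quarter turns) with `X_gᵀ S X_g = 150 I`.  One finds `f` strictly polyconvex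
with `f (X_g) = 0` and `Df (X_g) J = S X_g`, so that the sixteen points
`(X_g; S X_g; 150 I)` lie in `K_f`; they are images of the `X_g` under an affine map which maps
rank-one lines to rank-one lines.  The hull of the `X_g` is nontrivial: there are sixteen further
points `P_g`, `Q_g` with `3 P_g = 2 X_g + Q_g` and `3 Q_g = P_{g1} + 2 P_{g2}`, where
`X_g - Q_g` and `P_{g1} - P_{g2}` have rank one.
-/

set_option autoImplicit false

namespace Pool.Agent.Results.MP_f3a7de_an.RcHullCounterexample

open Finset

/-- **Answer to Q1 (negative), for every `n ≥ 5`.**  There are a strictly polyconvex function `f`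
of class `C^∞` on the `n × 2` matrices and a radius `R > 0` for which some matrix `A` outside
`K_R` belongs to the rank-one convex hull of `K_R`. -/
theorem result (n : ℕ) (hn : 5 ≤ n) :
    ∃ f : (Fin n → Fin 2 → ℝ) → ℝ, ContDiff ℝ (⊤ : ℕ∞) f ∧ StrictlyPolyconvex f ∧
      ∃ R : ℝ, 0 < R ∧ ∃ A, A ∉ KR f R ∧ A ∈ rcHull (KR f R) :=
  result_proof n hn

end Pool.Agent.Results.MP_f3a7de_an.RcHullCounterexample
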